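import Mathlib

namespace Pool.Agent.H.MP_3ac48a_al

/-- left `G`-commensurated subsets -/
def Comm (G : Type) [Group G] : Set (Set G) :=
  {A | ∀ g : G, (symmDiff ((fun x => g * x) '' A) A).Finite}

/-- the left commensurated subsets, preordered by inclusion modulo finite sets -/
def PC (G : Type) [Group G] : Type := Comm G

instance (G : Type) [Group G] : Preorder (PC G) where
  le A B := (A.1 \ B.1).Finite
  le_refl A := by simp
  le_trans A B C h1 h2 := (h1.union h2).subset fun x hx => by
    by_cases h : x ∈ B.1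
    · exact Or.inr ⟨h, hx.2⟩
    · exact Or.inl ⟨hx.1, h⟩

/-- commensurated subsets modulo finite subsets, with the order of the quotient Boolean algebra -/
abbrev Pstar (G : Type) [Group G] : Type := Antisymmetrization (PC G) (· ≤ ·)

/-- the free product of countably many copies of `ℤ²` -/
abbrev G2 : Type := Monoid.CoprodI fun _ : ℕ => Multiplicative (ℤ × ℤ)

def CS {G : Type} [Group G] (A : Set G) : Subgroup G where
  carrier := {g | {u | ¬ (g * u ∈ A ↔ u ∈ A)}.Finite}
  one_mem' := by simp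
  mul_mem' := by
    intro s t hs ht
    refine ((hs.preimage (mul_right_injective t).injOn).union ht).subset fun u hu => ?_
    simp only [Set.mem_ofPred_eq, Set.mem_union, Set.mem_preimage, mul_assoc] at hu ⊢
    tauto
  inv_mem' := by
    intro s hs
    refine (hs.preimage (mul_right_injective s⁻¹).injOn).subset fun u hu => ?_
    simp only [Set.mem_ofPred_eq, Set.mem_preimage, mul_inv_cancel_left] at hu ⊢
    tauto

theorem comm_iff {G : Type} [Group G] (A : Set G) : A ∈ Comm G ↔ ∀ g, g ∈ CS A := by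
  refine forall_congr' fun g => ?_
  have h : (fun x => g * x) ⁻¹' (symmDiff ((fun x => g * x) '' A) A) =
      {u | ¬ (g * u ∈ A ↔ u ∈ A)} := by
    ext u
    simp only [Set.mem_preimage, Set.mem_symmDiff, (mul_right_injective g).mem_set_image,
      Set.mem_ofPred_eq]
    tauto
  show _ ↔ {u | ¬ (g * u ∈ A ↔ u ∈ A)}.Finite
  rw [← h]
  exact ⟨fun h1 => h1.preimage (mul_right_injective g).injOn,
    fun h1 => h1.of_preimage (mul_left_surjective g)⟩

def TA (B : Set (List ℕ)) : Prop := ∀ n, {w | ¬ (n :: w ∈ B ↔ w ∈ B)}.Finite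

/-! ### the free group -/

def jj (x : ℕ × Bool) : ℕ := 2 * x.1 + (if x.2 then 1 else 0)
def ji (k : ℕ) : ℕ × Bool := (k / 2, decide (k % 2 = 1))
def xi (x : ℕ × Bool) : ℕ × Bool := (x.1, !x.2)

theorem ji_jj (x : ℕ × Bool) : ji (jj x) = x := by
  obtain ⟨n, b⟩ := x
  cases b <;> simp [ji, jj] <;> omega

theorem jj_ji (k : ℕ) : jj (ji k) = k := by
  simp only [ji, jj, decide_eq_true_eq]
  split_ifs <;> omega

def pp (g : FreeGroup ℕ) : Option ℕ := g.toWord.head?.map fun x => jj (xi x)

def sk : Option ℕ → ℕ → ℕ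
  | none, k => k
  | some p, k => if k < p then k else k + 1

theorem sk_ne (o : Option ℕ) (k : ℕ) : o ≠ some (sk o k) := by
  rcases o with _ | p
  · simp
  · simp only [sk, ne_eq, Option.some.injEq]; split_ifs <;> omega

theorem sk_inj (o : Option ℕ) {k l : ℕ} (h : sk o k = sk o l) : k = l := by
  rcases o with _ | p
  · exact h
  · simp only [sk] at h; split_ifs at h <;> omega

theorem sk_cases (o : Option ℕ) (k : ℕ) : sk o k = k ∨ sk o k = k + 1 := by
  rcases o with _ | p
  · exact Or.inl rfl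
  · simp only [sk]; split_ifs <;> simp

theorem sk_surj (o : Option ℕ) (m : ℕ) (h : o ≠ some m) : ∃ k, sk o k = m := by
  rcases o with _ | p
  · exact ⟨m, rfl⟩
  · have h1 : p ≠ m := fun e => h (by rw [e])
    by_cases h2 : m < p
    · exact ⟨m, by simp [sk, h2]⟩
    · exact ⟨m - 1, by simp only [sk]; split_ifs <;> omega⟩

theorem dich (x : ℕ × Bool) (g : FreeGroup ℕ) :
    (pp g ≠ some (jj x) ∧ (FreeGroup.mk [x] * g).toWord = x :: g.toWord) ∨
    (pp g = some (jj x) ∧ g.toWord = xi x :: (FreeGroup.mk [x] * g).toWord) := by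
  have h : (FreeGroup.mk [x] * g).toWord = FreeGroup.reduce (x :: g.toWord) := by
    conv_lhs => rw [← FreeGroup.mk_toWord (x := g), FreeGroup.mul_mk, FreeGroup.toWord_mk]
    rfl
  rw [h, FreeGroup.reduce.cons, FreeGroup.reduce_toWord]
  unfold pp
  rcases g.toWord with _ | ⟨y, L⟩
  · simp
  · by_cases e : x.1 = y.1 ∧ x.2 = !y.2
    · right
      have e1 : xi y = x := Prod.ext e.1.symm e.2.symm
      have e2 : xi x = y := by rw [← e1]; simp [xi]
      simp [e, e1, e2]
    · left
      refine ⟨fun h1 => e ?_, by simp [e]⟩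
      have h2 : jj (xi y) = jj x := by simpa using h1
      have h3 := congrArg ji h2
      rw [ji_jj, ji_jj] at h3
      rw [← h3]; simp [xi]

def ch (g : FreeGroup ℕ) (k : ℕ) : FreeGroup ℕ := FreeGroup.mk [ji (sk (pp g) k)] * g

theorem toWord_ch (g : FreeGroup ℕ) (k : ℕ) : (ch g k).toWord = ji (sk (pp g) k) :: g.toWord := by
  rcases dich (ji (sk (pp g) k)) g with h | h
  · exact h.2
  · rw [jj_ji] at h; exact absurd h.1 (sk_ne _ _)

theorem ch_inj {g g' : FreeGroup ℕ} {k k' : ℕ} (h : ch g k = ch g' k') : g = g' ∧ k = k' := by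
  have h1 := congrArg FreeGroup.toWord h
  rw [toWord_ch, toWord_ch, List.cons.injEq] at h1
  have h2 := FreeGroup.toWord_injective h1.2
  subst h2
  have h3 := congrArg jj h1.1
  rw [jj_ji, jj_ji] at h3
  exact ⟨rfl, sk_inj _ h3⟩

theorem ch_ne (g : FreeGroup ℕ) (k : ℕ) : ch g k ≠ 1 := fun h => by
  have h1 := toWord_ch g k
  rw [h] at h1
  simp at h1

theorem xi_mul (x : ℕ × Bool) (g : FreeGroup ℕ) :
    FreeGroup.mk [xi x] * (FreeGroup.mk [x] * g) = g := by
  have : FreeGroup.mk [xi x] = (FreeGroup.mk [x])⁻¹ := by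
    rw [FreeGroup.inv_mk]; rfl
  rw [this, inv_mul_cancel_left]

theorem edge1 (x : ℕ × Bool) (g : FreeGroup ℕ) (h : pp g ≠ some (jj x)) :
    ∃ k ≤ jj x, FreeGroup.mk [x] * g = ch g k := by
  obtain ⟨k, hk⟩ := sk_surj _ _ h
  refine ⟨k, by have := sk_cases (pp g) k; omega, ?_⟩
  rw [ch, hk, ji_jj]

theorem edge (x : ℕ × Bool) (g : FreeGroup ℕ) :
    (∃ k ≤ jj x, FreeGroup.mk [x] * g = ch g k) ∨
    ∃ k ≤ jj (xi x), g = ch (FreeGroup.mk [x] * g) k := by
  rcases dich x g with h | h
  · exact Or.inl (edge1 x g h.1)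
  · right
    rcases dich (xi x) (FreeGroup.mk [x] * g) with h' | h'
    · have := edge1 _ _ h'.1
      rwa [xi_mul] at this
    · have h1 := congrArg List.length h.2
      have h2 := congrArg List.length h'.2
      rw [xi_mul] at h2
      simp only [List.length_cons] at h1 h2
      omega

def φ1 : List ℕ → FreeGroup ℕ
  | [] => 1
  | k :: w => ch (φ1 w) k

theorem φ1_inj : Function.Injective φ1 := by
  intro w
  induction w with
  | nil =>
    intro w' h
    rcases w' with _ | ⟨k, w'⟩
    · rfl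
    · exact absurd h.symm (ch_ne _ _)
  | cons k w ih =>
    intro w' h
    rcases w' with _ | ⟨k', w'⟩
    · exact absurd h (ch_ne _ _)
    · obtain ⟨h1, h2⟩ := ch_inj h
      rw [ih h1, h2]

theorem φ1_surj : Function.Surjective φ1 := by
  have key : ∀ L : List (ℕ × Bool), ∃ w, φ1 w = FreeGroup.mk L := by
    intro L
    induction L with
    | nil => exact ⟨[], rfl⟩
    | cons x L ih =>
      obtain ⟨w, hw⟩ := ih
      have e : FreeGroup.mk (x :: L) = FreeGroup.mk [x] * φ1 w := by
        rw [hw, FreeGroup.mul_mk]; rfl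
      rw [e]
      rcases edge x (φ1 w) with ⟨k, -, h⟩ | ⟨k, -, h⟩
      · exact ⟨k :: w, h.symm⟩
      · rcases w with _ | ⟨k', w'⟩
        · exact absurd h.symm (ch_ne _ _)
        · exact ⟨w', (ch_inj h).1⟩
  intro g
  obtain ⟨w, hw⟩ := key g.toWord
  exact ⟨w, by rw [hw, FreeGroup.mk_toWord]⟩

theorem comm1 (A : Set (FreeGroup ℕ)) : A ∈ Comm (FreeGroup ℕ) ↔ TA (φ1 ⁻¹' A) := by
  rw [comm_iff]
  constructor
  · intro h n
    refine (((h (FreeGroup.mk [ji n])).union (h (FreeGroup.mk [ji (n + 1)]))).preimage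
      φ1_inj.injOn).subset fun w hw => ?_
    have hw' : ¬ (ch (φ1 w) n ∈ A ↔ φ1 w ∈ A) := hw
    unfold ch at hw'
    rcases sk_cases (pp (φ1 w)) n with e | e <;> rw [e] at hw'
    · exact Or.inl hw'
    · exact Or.inr hw'
  · intro h
    have hD : ∀ m, {g | ∃ k ≤ m, ¬ (ch g k ∈ A ↔ g ∈ A)}.Finite := by
      intro m
      refine Set.Finite.of_preimage ?_ φ1_surj
      refine ((Set.finite_le_nat m).biUnion fun k _ => h k).subset ?_
      rintro w ⟨k, hk, hw⟩
      exact Set.mem_biUnion hk hw
    have hx : ∀ x, FreeGroup.mk [x] ∈ CS A := by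
      intro x
      refine ((hD (jj x)).union ((hD (jj (xi x))).preimage
        (mul_right_injective (FreeGroup.mk [x])).injOn)).subset fun g hg => ?_
      have hg' : ¬ (FreeGroup.mk [x] * g ∈ A ↔ g ∈ A) := hg
      rcases edge x g with ⟨k, hk, e⟩ | ⟨k, hk, e⟩
      · exact Or.inl ⟨k, hk, by rwa [← e]⟩
      · exact Or.inr ⟨k, hk, by rw [← e]; exact fun h1 => hg' h1.symm⟩
    intro g
    rw [← FreeGroup.mk_toWord (x := g)]
    induction g.toWord with
    | nil => exact (CS A).one_mem
    | cons x L ih =>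
      have e : FreeGroup.mk (x :: L) = FreeGroup.mk [x] * FreeGroup.mk L := by
        rw [FreeGroup.mul_mk]; rfl
      rw [e]
      exact (CS A).mul_mem (hx x) ih

/-! ### the free product of copies of `ℤ²` -/

abbrev HH : Type := Multiplicative (ℤ × ℤ)

theorem exists_e : ∃ e : ℕ ≃ HH, e 0 = 1 := by
  classical
  have : Countable HH := inferInstanceAs (Countable (ℤ × ℤ))
  obtain ⟨f⟩ : Nonempty (ℕ ≃ HH) := nonempty_equiv_of_countable
  exact ⟨f.trans (Equiv.swap (f 0) 1), by simp⟩

noncomputable def ee : ℕ ≃ HH := exists_e.choose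
theorem ee0 : ee 0 = 1 := exists_e.choose_spec

def cnt (n : ℕ) : List ℕ → ℕ
  | [] => 0
  | m :: w => if m = n then cnt n w + 1 else 0

def tl (n : ℕ) : List ℕ → List ℕ
  | [] => []
  | m :: w => if m = n then tl n w else m :: w

theorem cnt_tl (n : ℕ) (w : List ℕ) : cnt n (tl n w) = 0 := by
  induction w with
  | nil => rfl
  | cons m w ih => by_cases h : m = n <;> simp [cnt, tl, h, ih]

theorem tl_tl (n : ℕ) (w : List ℕ) : tl n (tl n w) = tl n w := by
  induction w with
  | nil => rfl
  | cons m w ih => by_cases h : m = n <;> simp [tl, h, ih]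

theorem rep_tl (n : ℕ) (w : List ℕ) : List.replicate (cnt n w) n ++ tl n w = w := by
  induction w with
  | nil => rfl
  | cons m w ih => by_cases h : m = n <;> simp [cnt, tl, h, List.replicate_succ, ih]

theorem cnt_rep (n k : ℕ) (w : List ℕ) : cnt n (List.replicate k n ++ w) = k + cnt n w := by
  induction k with
  | zero => simp
  | succ k ih => simp [List.replicate_succ, cnt, ih]; omega

theorem tl_rep (n k : ℕ) (w : List ℕ) : tl n (List.replicate k n ++ w) = tl n w := by
  induction k with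
  | zero => simp
  | succ k ih => simp [List.replicate_succ, tl, ih]

noncomputable def act (n : ℕ) (h : HH) (w : List ℕ) : List ℕ :=
  List.replicate (ee.symm (h * ee (cnt n w))) n ++ tl n w

noncomputable def actHom (n : ℕ) : HH →* Function.End (List ℕ) where
  toFun := act n
  map_one' := by
    funext w
    show act n 1 w = w
    simp [act, rep_tl]
  map_mul' := by
    intro h h'
    funext w
    show act n (h * h') w = act n h (act n h' w)
    simp [act, cnt_rep, tl_rep, cnt_tl, tl_tl, mul_assoc]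

noncomputable def ρ : G2 →* Function.End (List ℕ) := Monoid.CoprodI.lift actHom

theorem ρ_of (n : ℕ) (h : HH) (w : List ℕ) :
    ρ (Monoid.CoprodI.of (i := n) h) w = act n h w := by
  unfold ρ; rw [Monoid.CoprodI.lift_of]; rfl

noncomputable def φ2 : List ℕ → G2
  | [] => 1
  | n :: w => Monoid.CoprodI.of (i := n) (ee (cnt n w + 1) * (ee (cnt n w))⁻¹) * φ2 w

theorem φ2_rep (n k : ℕ) (w : List ℕ) :
    φ2 (List.replicate k n ++ tl n w) = Monoid.CoprodI.of (i := n) (ee k) * φ2 (tl n w) := by
  induction k with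
  | zero => simp [ee0]
  | succ k ih =>
    rw [List.replicate_succ, List.cons_append, φ2, ih, cnt_rep, cnt_tl, add_zero, ← mul_assoc,
      ← map_mul, inv_mul_cancel_right]

theorem φ2_act (n : ℕ) (h : HH) (w : List ℕ) :
    φ2 (act n h w) = Monoid.CoprodI.of (i := n) h * φ2 w := by
  conv_rhs => rw [← rep_tl n w, φ2_rep]
  rw [act, φ2_rep, Equiv.apply_symm_apply, map_mul, mul_assoc]

theorem φ2_ρ (g : G2) (w : List ℕ) : φ2 (ρ g w) = g * φ2 w := by
  induction g using Monoid.CoprodI.induction_on generalizing w with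
  | one => rw [map_one, one_mul]; rfl
  | of i h => rw [ρ_of, φ2_act]
  | mul x y hx hy =>
    rw [map_mul, mul_assoc, ← hy, ← hx]; rfl

theorem ρ_φ2 (w : List ℕ) : ρ (φ2 w) [] = w := by
  induction w with
  | nil => rw [φ2, map_one]; rfl
  | cons n w ih =>
    have e : ∀ x y : G2, ρ (x * y) [] = ρ x (ρ y []) := fun x y => by rw [map_mul]; rfl
    rw [φ2, e, ih, ρ_of, act, inv_mul_cancel_right, Equiv.symm_apply_apply, List.replicate_succ,
      List.cons_append, rep_tl]

theorem φ2_inj : Function.Injective φ2 := fun w w' h => by rw [← ρ_φ2 w, h, ρ_φ2]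

theorem φ2_surj : Function.Surjective φ2 := fun g => ⟨ρ g [], by rw [φ2_ρ, φ2, mul_one]⟩

theorem const_int (f : ℤ → Prop) (h : ∀ z, f (z + 1) ↔ f z) (z z' : ℤ) : f z ↔ f z' := by
  have key : ∀ z, f z ↔ f 0 := by
    intro z
    induction z using Int.induction_on with
    | zero => rfl
    | succ i ih => rw [h, ih]
    | pred i ih => rw [← h, sub_add_cancel, ih]
  rw [key z, key z']

theorem one_end (f : ℤ × ℤ → Prop) (N : ℤ)
    (h1 : ∀ x y, (N < |x| ∨ N < |y|) → (f (x + 1, y) ↔ f (x, y)))
    (h2 : ∀ x y, (N < |x| ∨ N < |y|) → (f (x, y + 1) ↔ f (x, y))) (p : ℤ × ℤ)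
    (hp : N < |p.1| ∨ N < |p.2|) : f p ↔ f (|N| + 1, 0) := by
  have hN : N < |(|N| + 1)| := by
    have := le_abs_self N
    have := le_abs_self (|N| + 1)
    omega
  have row : ∀ x y, N < |y| → (f (x, y) ↔ f (|N| + 1, 0)) := by
    intro x y hy
    rw [const_int (fun x => f (x, y)) (fun z => h1 z y (Or.inr hy)) x (|N| + 1)]
    exact const_int (fun y => f (|N| + 1, y)) (fun z => h2 _ z (Or.inl hN)) y 0
  obtain ⟨x, y⟩ := p
  rcases hp with hp | hp
  · rw [const_int (fun y => f (x, y)) (fun z => h2 x z (Or.inl hp)) y (|N| + 1)]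
    exact row _ _ hN
  · exact row _ _ hp

theorem comm2 (A : Set G2) : A ∈ Comm G2 ↔ TA (φ2 ⁻¹' A) := by
  rw [comm_iff]
  set B := φ2 ⁻¹' A with hB
  constructor
  · intro h n
    have hb : ∀ s : HH, {w | ¬ (act n s w ∈ B ↔ w ∈ B)}.Finite := by
      intro s
      refine ((h (Monoid.CoprodI.of (i := n) s)).preimage φ2_inj.injOn).subset fun w hw => ?_
      simpa [hB, φ2_act] using hw
    let Bad := {w | ¬ (act n (Multiplicative.ofAdd (1, 0)) w ∈ B ↔ w ∈ B)} ∪
      {w | ¬ (act n (Multiplicative.ofAdd (0, 1)) w ∈ B ↔ w ∈ B)}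
    have hBad : Bad.Finite := (hb _).union (hb _)
    let co : ℕ → ℤ × ℤ := fun k => (ee k).toAdd
    obtain ⟨N, hN⟩ := (hBad.image fun w => |(co (cnt n w)).1| + |(co (cnt n w)).2|).bddAbove
    let F : List ℕ → ℤ × ℤ → Prop := fun w p =>
      List.replicate (ee.symm (Multiplicative.ofAdd p)) n ++ tl n w ∈ B
    have hF : ∀ w (p q : ℤ × ℤ), act n (Multiplicative.ofAdd q)
        (List.replicate (ee.symm (Multiplicative.ofAdd p)) n ++ tl n w) =
        List.replicate (ee.symm (Multiplicative.ofAdd (p + q))) n ++ tl n w := by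
      intro w p q
      simp [act, cnt_rep, cnt_tl, tl_rep, tl_tl, mul_comm]
    have hstep : ∀ w (p : ℤ × ℤ),
        List.replicate (ee.symm (Multiplicative.ofAdd p)) n ++ tl n w ∉ Bad →
        (F w (p.1 + 1, p.2) ↔ F w p) ∧ (F w (p.1, p.2 + 1) ↔ F w p) := by
      intro w p hp
      simp only [Bad, Set.mem_union, Set.mem_ofPred_eq, not_or, not_not, hF] at hp
      have e1 : p + (1, 0) = (p.1 + 1, p.2) := by ext <;> simp
      have e2 : p + (0, 1) = (p.1, p.2 + 1) := by ext <;> simp
      rw [e1, e2] at hp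
      exact hp
    have hfar : ∀ w (x y : ℤ), (N < |x| ∨ N < |y|) →
        List.replicate (ee.symm (Multiplicative.ofAdd (x, y))) n ++ tl n w ∉ Bad := by
      intro w x y hxy hm
      have h1 := hN ⟨_, hm, rfl⟩
      simp only [co, cnt_rep, cnt_tl, add_zero, Equiv.apply_symm_apply, toAdd_ofAdd] at h1
      have := abs_nonneg x
      have := abs_nonneg y
      omega
    let K : Set ℕ := co ⁻¹' (Set.Icc (-N) N ×ˢ Set.Icc (-N) N)
    have hK : K.Finite := ((Set.finite_Icc _ _).prod (Set.finite_Icc _ _)).preimage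
      (Multiplicative.toAdd.injective.comp ee.injective).injOn
    have hK' : (K ∪ (fun k => k + 1) ⁻¹' K).Finite :=
      hK.union (hK.preimage (add_left_injective 1).injOn)
    refine ((hK'.prod (hBad.image (tl n))).image
      fun p => List.replicate p.1 n ++ p.2).subset fun w hw => ?_
    have hw' : ¬ (F w (co (cnt n w + 1)) ↔ F w (co (cnt n w))) := by
      simpa [F, co, List.replicate_succ, rep_tl] using hw
    refine ⟨(cnt n w, tl n w), ⟨?_, ?_⟩, rep_tl n w⟩
    · by_contra hc
      have hout : ∀ k, k ∉ K → (F w (co k) ↔ F w (|N| + 1, 0)) := by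
        intro k hk
        refine one_end (F w) N (fun x y hxy => (hstep w (x, y) (hfar w x y hxy)).1)
          (fun x y hxy => (hstep w (x, y) (hfar w x y hxy)).2) _ ?_
        simp only [K, Set.mem_preimage, Set.mem_prod, Set.mem_Icc, ← abs_le] at hk
        omega
      exact hw' ((hout _ fun h1 => hc (Or.inr h1)).trans (hout _ fun h1 => hc (Or.inl h1)).symm)
    · by_contra hc
      have hg : ∀ p : ℤ × ℤ,
          List.replicate (ee.symm (Multiplicative.ofAdd p)) n ++ tl n w ∉ Bad :=
        fun p hm => hc ⟨_, hm, by rw [tl_rep, tl_tl]⟩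
      have hall : ∀ p, F w p ↔ F w (|-1| + 1, 0) := fun p =>
        one_end (F w) (-1) (fun x y _ => (hstep w (x, y) (hg _)).1)
          (fun x y _ => (hstep w (x, y) (hg _)).2) p
          (Or.inl (by have := abs_nonneg p.1; omega))
      exact hw' ((hall _).trans (hall _).symm)
  · intro h g
    induction g using Monoid.CoprodI.induction_on with
    | one => exact (CS A).one_mem
    | mul x y hx hy => exact (CS A).mul_mem hx hy
    | of n s =>
      refine Set.Finite.of_preimage ?_ φ2_surj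
      obtain ⟨M, hM⟩ := ((h n).image (cnt n)).bddAbove
      have ray : ∀ w k0, (∀ k, k0 ≤ k → ((n :: (List.replicate k n ++ tl n w)) ∈ B ↔
          List.replicate k n ++ tl n w ∈ B)) → ∀ k, k0 ≤ k →
          (List.replicate k n ++ tl n w ∈ B ↔ List.replicate k0 n ++ tl n w ∈ B) := by
        intro w k0 h1 k hk
        induction k, hk using Nat.le_induction with
        | base => rfl
        | succ k hk ih => rw [List.replicate_succ, List.cons_append, h1 k hk, ih]
      have hK : (Set.Iic M ∪ (fun k => ee.symm (s * ee k)) ⁻¹' Set.Iic M).Finite :=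
        (Set.finite_Iic M).union ((Set.finite_Iic M).preimage
          (ee.symm.injective.comp ((mul_right_injective s).comp ee.injective)).injOn)
      refine ((hK.prod ((h n).image (tl n))).image
        fun p => List.replicate p.1 n ++ p.2).subset fun w hw => ?_
      have hw' : ¬ (List.replicate (ee.symm (s * ee (cnt n w))) n ++ tl n w ∈ B ↔
          List.replicate (cnt n w) n ++ tl n w ∈ B) := by
        rw [rep_tl]
        have : ¬ (φ2 (act n s w) ∈ A ↔ φ2 w ∈ A) := by rw [φ2_act]; exact hw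
        exact this
      refine ⟨(cnt n w, tl n w), ⟨?_, ?_⟩, rep_tl n w⟩
      · by_contra hc
        simp only [Set.mem_union, Set.mem_Iic, Set.mem_preimage, not_or, not_le] at hc
        have h1 := ray w (M + 1) (fun k hk => by
          by_contra h2
          have h3 := hM ⟨_, h2, rfl⟩
          rw [cnt_rep, cnt_tl] at h3
          omega)
        exact hw' ((h1 _ hc.2).trans (h1 _ hc.1).symm)
      · by_contra hc
        have h1 := ray w 0 (fun k _ => by
          by_contra h2
          exact hc ⟨_, h2, by rw [tl_rep, tl_tl]⟩)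
        exact hw' ((h1 _ (Nat.zero_le _)).trans (h1 _ (Nat.zero_le _)).symm)

theorem exists_bij : ∃ φ : FreeGroup ℕ ≃ G2, ∀ A, A ∈ Comm (FreeGroup ℕ) ↔ φ '' A ∈ Comm G2 := by
  let e1 := Equiv.ofBijective φ1 ⟨φ1_inj, φ1_surj⟩
  let e2 := Equiv.ofBijective φ2 ⟨φ2_inj, φ2_surj⟩
  refine ⟨e1.symm.trans e2, fun A => ?_⟩
  rw [comm1, comm2]
  have : φ2 ⁻¹' (e1.symm.trans e2 '' A) = φ1 ⁻¹' A := by
    ext w
    have h1 : φ2 w = (e1.symm.trans e2) (φ1 w) := by
      show e2 w = e2 (e1.symm (e1 w))
      rw [e1.symm_apply_apply]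
    rw [Set.mem_preimage, h1, (e1.symm.trans e2).injective.mem_set_image]
    rfl
  rw [this]

theorem iso_of {G G' : Type} [Group G] [Group G'] (φ : G ≃ G')
    (h : ∀ A, A ∈ Comm G ↔ φ '' A ∈ Comm G') : Nonempty (Pstar G ≃o Pstar G') := by
  let e : PC G ≃ PC G' := Equiv.subtypeEquiv (Equiv.Set.congr φ) h
  have he : ∀ A B : PC G, e A ≤ e B ↔ A ≤ B := by
    intro A B
    show (φ '' A.1 \ φ '' B.1).Finite ↔ (A.1 \ B.1).Finite
    rw [← Set.image_sdiff φ.injective]
    exact Set.finite_image_iff φ.injective.injOn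
  refine ⟨⟨Quotient.congr e fun A B => ?_, ?_⟩⟩
  · exact and_congr (he A B).symm (he B A).symm
  · intro A B
    induction A using Quotient.inductionOn
    induction B using Quotient.inductionOn
    exact he _ _

end Pool.Agent.H.MP_3ac48a_al
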